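import Pool.Agent.Helper49_LQF.INM

set_option autoImplicit false

open MeasureTheory ProbabilityTheory Function Filter

open scoped ENNReal BigOperators Topology NNReal ComplexOrder Matrix

noncomputable section

namespace Pool.Agent.LE.QF.H54

open Pool.Agent.Anderson hiding box mem_box card_box
open Pool.Agent.Loc Pool.Agent.Mob Pool.Agent.Helper54.Bal
  Pool.Agent.Helper96.EXP Pool.Agent.BED
open Pool.Agent.LE.MN Pool.Agent.LE.CL Pool.Agent.LE.IR Pool.Agent.LE.QD Pool.Agent.LE.QF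
open Pool.Agent.LE.QF.H49

variable {d M : ℕ} [NeZero M]

theorem norm_ec (p y : Tor d M) : ‖ec p y‖ = 1 := by
  unfold ec
  rw [norm_prod]
  exact Finset.prod_eq_one fun i _ => AddChar.norm_apply _ _

theorem ft_le (C' : Finset (Tor d M)) (p : Tor d M) :
    ‖ft (fun x => ((if x ∈ C' then (1 : ℝ) else 0 : ℝ) : ℂ)) p‖ ≤ C'.card := by
  unfold ft
  refine (norm_sum_le _ _).trans ?_
  calc ∑ y : Tor d M, ‖(starRingEnd ℂ) (ec p y) * ((if y ∈ C' then (1 : ℝ) else 0 : ℝ) : ℂ)‖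
      ≤ ∑ y : Tor d M, (if y ∈ C' then (1 : ℝ) else 0) := by
        refine Finset.sum_le_sum fun y _ => ?_
        rw [norm_mul, RCLike.norm_conj, norm_ec, one_mul, Complex.norm_real]
        split_ifs <;> simp
    _ = C'.card := by
        rw [← Finset.sum_filter]
        simp

theorem out_le {J : ℕ} {p : Tor d M} (hp : p ∉ low d M J) :
    (J : ℝ) ^ 2 ≤ ∑ i, ((p i).valMinAbs : ℝ) ^ 2 := by
  unfold low at hp
  simp only [Finset.mem_filter, Finset.mem_univ, true_and, not_forall, not_le] at hp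
  obtain ⟨i, hi⟩ := hp
  have h1 : (J : ℝ) ^ 2 ≤ ((p i).valMinAbs : ℝ) ^ 2 := by
    have h2 : (J : ℝ) ≤ |((p i).valMinAbs : ℝ)| := by
      have h3 : ((p i).valMinAbs.natAbs : ℝ) = |((p i).valMinAbs : ℝ)| := by
        rw [Nat.cast_natAbs, Int.cast_abs]
      rw [← h3]
      exact_mod_cast hi.le
    rw [← sq_abs ((p i).valMinAbs : ℝ)]
    exact pow_le_pow_left₀ (Nat.cast_nonneg _) h2 2
  exact h1.trans (Finset.single_le_sum (f := fun i => ((p i).valMinAbs : ℝ) ^ 2)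
    (fun j _ => sq_nonneg _) (Finset.mem_univ i))

theorem mss (hfmu : FmuStmt) (hlow : LowStmt) : MssStmt := by
  intro d hd
  obtain ⟨C, hC, hL⟩ := hlow d hd
  refine ⟨C, hC, ?_⟩
  intro M _ J J₁ cs w C' hJ₁ hcs hw
  obtain ⟨hds, hJ⟩ := hL M
  obtain ⟨hcard, hsum⟩ := hJ J₁ hJ₁
  have hM : (0 : ℝ) < M := by exact_mod_cast Nat.pos_of_ne_zero (NeZero.ne M)
  have hMd : (0 : ℝ) < (M : ℝ) ^ d := pow_pos hM d
  have hJp : (0 : ℝ) < J₁ := by exact_mod_cast hJ₁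
  obtain ⟨f, hf⟩ : ∃ f : Tor d M → ℝ, f = fun x => if x ∈ C' then (1 : ℝ) else 0 := ⟨_, rfl⟩
  obtain ⟨s, hs⟩ : ∃ s : Tor d M → ℝ, s = sy0 cs w J := ⟨_, rfl⟩
  have hs0 : ∀ p, 0 ≤ s p := fun p => by rw [hs]; exact sy0_nonneg hcs.le hw J p
  have hsn : ∀ p, s (-p) = s p := fun p => by rw [hs]; exact sy0_neg cs w J p
  have h1 := (hfmu d M s (fun _ => 1) hsn (fun _ => rfl)).1 f
  have h2 := (hfmu d M (fun _ => 1) (fun _ => 1) (fun _ => rfl) (fun _ => rfl)).1 f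
  rw [(hfmu d M (fun _ => 1) (fun _ => 1) (fun _ => rfl) (fun _ => rfl)).2.2.2.2.2.1, qf_one] at h2
  have hff : ∑ a, f a ^ 2 = C'.card := by
    rw [hf]
    have : ∀ a : Tor d M, (if a ∈ C' then (1 : ℝ) else 0) ^ 2 = if a ∈ C' then (1 : ℝ) else 0 := by
      intro a
      split_ifs <;> norm_num
    simp only [this]
    rw [← Finset.sum_filter]
    simp
  rw [hff] at h2
  have hqf : qf (mlt s) f = ∑ x ∈ C', ∑ y ∈ C', mlt s x y := by
    unfold qf
    rw [← Finset.sum_subset (Finset.subset_univ C')]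
    · refine Finset.sum_congr rfl fun x hx => ?_
      unfold Matrix.mulVec dotProduct
      rw [← Finset.sum_subset (Finset.subset_univ C')]
      · rw [hf]
        simp only [hx, if_true, one_mul]
        refine Finset.sum_congr rfl fun y hy => ?_
        simp only [hy, if_true, mul_one]
      · intro y _ hy
        rw [hf]
        simp only [hy, if_false, mul_zero]
    · intro x _ hx
      rw [hf]
      simp only [hx, if_false, zero_mul]
  rw [hs] at hqf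
  rw [← hqf, ← hs, h1]
  obtain ⟨g, hg⟩ : ∃ g : Tor d M → ℝ, g = fun p => ‖ft (fun x => (f x : ℂ)) p‖ ^ 2 := ⟨_, rfl⟩
  have hg0 : ∀ p, 0 ≤ g p := fun p => by rw [hg]; positivity
  have hgC : ∀ p, g p ≤ (C'.card : ℝ) ^ 2 := by
    intro p
    rw [hg, hf]
    exact pow_le_pow_left₀ (norm_nonneg _) (ft_le C' p) 2
  have hgs : (∑ p, g p) / (M : ℝ) ^ d = C'.card := by
    rw [h2]
    unfold pm
    simp only [hg, one_mul]
  have hpm : pm (fun p => s p * ‖ft (fun x => (f x : ℂ)) p‖ ^ 2) =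
      (∑ p, s p * g p) / (M : ℝ) ^ d := by
    unfold pm
    simp only [hg]
  rw [hpm]
  obtain ⟨B, hB⟩ : ∃ B : ℝ, B = cs * (1 / w + w * (M : ℝ) ^ 2 / (J₁ : ℝ) ^ 2) := ⟨_, rfl⟩
  have hB0 : 0 ≤ B := by rw [hB]; positivity
  have hout : ∀ p, p ∉ low d M J₁ → s p ≤ B := by
    intro p hp
    rw [hs]
    unfold sy0
    split_ifs
    · rw [hB]
      refine mul_le_mul_of_nonneg_left ?_ hcs.le
      have h3 : 16 / (M : ℝ) ^ 2 * (J₁ : ℝ) ^ 2 ≤ ds p :=
        (mul_le_mul_of_nonneg_left (out_le hp) (by positivity)).trans (hds p).1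
      have h4 : w / ds p ≤ w * (M : ℝ) ^ 2 / (J₁ : ℝ) ^ 2 := by
        have h5 : 0 < 16 / (M : ℝ) ^ 2 * (J₁ : ℝ) ^ 2 := by positivity
        calc w / ds p ≤ w / (16 / (M : ℝ) ^ 2 * (J₁ : ℝ) ^ 2) := by gcongr
          _ = w * (M : ℝ) ^ 2 / (J₁ : ℝ) ^ 2 / 16 := by field_simp
          _ ≤ w * (M : ℝ) ^ 2 / (J₁ : ℝ) ^ 2 := by
              have : 0 ≤ w * (M : ℝ) ^ 2 / (J₁ : ℝ) ^ 2 := by positivity
              linarith
      linarith
    · exact hB0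
  have hin : ∑ p ∈ low d M J₁, s p ≤ cs * (C * (J₁ : ℝ) ^ d / w +
      w * (C * (M : ℝ) ^ 2 * (J₁ : ℝ) ^ (d - 2))) := by
    have h3 : ∀ p ∈ low d M J₁, s p ≤ cs * (1 / w + w * (if p ≠ 0 then 1 / ds p else 0)) := by
      intro p _
      rw [hs]
      unfold sy0
      split_ifs with h4 h5 h5
      · rw [mul_one_div]
      · exact absurd h4.2 h5
      · have := ds_nonneg p
        positivity
      · simp only [mul_zero, add_zero]
        positivity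
    refine (Finset.sum_le_sum h3).trans ?_
    rw [← Finset.mul_sum]
    refine mul_le_mul_of_nonneg_left ?_ hcs.le
    rw [Finset.sum_add_distrib, ← Finset.mul_sum, ← Finset.sum_filter, Finset.sum_const,
      nsmul_eq_mul]
    refine add_le_add ?_ (mul_le_mul_of_nonneg_left hsum hw.le)
    rw [mul_one_div]
    gcongr
  have hsplit : ∑ p, s p * g p ≤ B * ∑ p, g p +
      (cs * (C * (J₁ : ℝ) ^ d / w + w * (C * (M : ℝ) ^ 2 * (J₁ : ℝ) ^ (d - 2)))) *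
        (C'.card : ℝ) ^ 2 := by
    rw [← Finset.sum_add_sum_compl (low d M J₁) fun p => s p * g p]
    have h3 : ∑ p ∈ low d M J₁, s p * g p ≤
        (cs * (C * (J₁ : ℝ) ^ d / w + w * (C * (M : ℝ) ^ 2 * (J₁ : ℝ) ^ (d - 2)))) *
        (C'.card : ℝ) ^ 2 := by
      calc ∑ p ∈ low d M J₁, s p * g p ≤ ∑ p ∈ low d M J₁, s p * (C'.card : ℝ) ^ 2 :=
            Finset.sum_le_sum fun p _ => mul_le_mul_of_nonneg_left (hgC p) (hs0 p)
        _ = (∑ p ∈ low d M J₁, s p) * (C'.card : ℝ) ^ 2 := by rw [Finset.sum_mul]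
        _ ≤ _ := mul_le_mul_of_nonneg_right hin (by positivity)
    have h4 : ∑ p ∈ (low d M J₁)ᶜ, s p * g p ≤ B * ∑ p, g p := by
      calc ∑ p ∈ (low d M J₁)ᶜ, s p * g p ≤ ∑ p ∈ (low d M J₁)ᶜ, B * g p :=
            Finset.sum_le_sum fun p hp => mul_le_mul_of_nonneg_right
              (hout p (Finset.mem_compl.1 hp)) (hg0 p)
        _ ≤ ∑ p, B * g p := Finset.sum_le_sum_of_subset_of_nonneg (Finset.subset_univ _)
            fun p _ _ => mul_nonneg hB0 (hg0 p)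
        _ = B * ∑ p, g p := by rw [Finset.mul_sum]
    linarith
  have h5 : (∑ p, s p * g p) / (M : ℝ) ^ d ≤ B * C'.card +
      (cs * (C * (J₁ : ℝ) ^ d / w + w * (C * (M : ℝ) ^ 2 * (J₁ : ℝ) ^ (d - 2)))) /
        (M : ℝ) ^ d * (C'.card : ℝ) ^ 2 := by
    rw [← hgs]
    calc (∑ p, s p * g p) / (M : ℝ) ^ d ≤ (B * ∑ p, g p +
      (cs * (C * (J₁ : ℝ) ^ d / w + w * (C * (M : ℝ) ^ 2 * (J₁ : ℝ) ^ (d - 2)))) *
        (C'.card : ℝ) ^ 2) / (M : ℝ) ^ d := by gcongr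
      _ = _ := by rw [hgs]; ring_nf; rw [← hgs]; ring
  have h6 : (cs * (C * (J₁ : ℝ) ^ d / w + w * (C * (M : ℝ) ^ 2 * (J₁ : ℝ) ^ (d - 2)))) /
        (M : ℝ) ^ d = C * cs * (((J₁ : ℝ) / M) ^ d / w + w * ((J₁ : ℝ) / M) ^ (d - 2)) := by
    obtain ⟨e, rfl⟩ : ∃ e, d = e + 2 := ⟨d - 2, by omega⟩
    have h7 : e + 2 - 2 = e := by omega
    rw [h7, div_pow, div_pow]
    field_simp
    ring
  have h8 : B * C'.card ≤ C * cs * ((1 / w + w * (M : ℝ) ^ 2 / (J₁ : ℝ) ^ 2) * C'.card) := by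
    rw [hB]
    have h9 : 0 ≤ cs * ((1 / w + w * (M : ℝ) ^ 2 / (J₁ : ℝ) ^ 2) * (C'.card : ℝ)) := by positivity
    have h10 : cs * (1 / w + w * (M : ℝ) ^ 2 / (J₁ : ℝ) ^ 2) * C'.card =
        1 * (cs * ((1 / w + w * (M : ℝ) ^ 2 / (J₁ : ℝ) ^ 2) * C'.card)) := by ring
    rw [h10, mul_assoc C cs]
    exact mul_le_mul_of_nonneg_right hC h9
  rw [h6] at h5
  calc (∑ p, s p * g p) / (M : ℝ) ^ d ≤ _ := h5
    _ ≤ C * cs * ((1 / w + w * (M : ℝ) ^ 2 / (J₁ : ℝ) ^ 2) * C'.card) +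
        C * cs * (((J₁ : ℝ) / M) ^ d / w + w * ((J₁ : ℝ) / M) ^ (d - 2)) * (C'.card : ℝ) ^ 2 := by
        linarith
    _ = _ := by ring

end Pool.Agent.LE.QF.H54
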