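import Pool.Agent.Helper54_LQF.CPYa
import Pool.Agent.Helper54_LQD.CPX

/-!
# CPY: the probability of the large clusters
-/

set_option autoImplicit false

open MeasureTheory ProbabilityTheory Function Filter

open scoped ENNReal BigOperators Topology NNReal

noncomputable section

namespace Pool.Agent.LE.QF.H54

open Pool.Agent.Anderson hiding box mem_box card_box
open Pool.Agent.Loc Pool.Agent.Mob Pool.Agent.Helper54.Bal
  Pool.Agent.Helper96.EXP Pool.Agent.BED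
open Pool.Agent.LE.MN Pool.Agent.LE.CL Pool.Agent.LE.IR Pool.Agent.LE.QD

open Pool.Agent.LE.QD.H54 (ceil_x ti_rep ev_two)

/-- CPY -/
theorem cpy (tof : TofStmt) (clq : ClqStmt) (gro : GroStmt) (cls : ClsStmt) : CpyStmt := by
  intro d a ε A hd ha hε0 hε1 hA
  have hd0 : (3 : ℝ) ≤ d := by exact_mod_cast hd
  have hdd : (9 : ℝ) ≤ d * d := by nlinarith only [hd0]
  obtain ⟨c₁, K₁, hc₁, hc₁4, hK₁, hclq⟩ := clq d a (A + 4 + 2 * d * d) hd ha (by linarith)
  obtain ⟨θ, c₂, hθ, hc₂, hc₂4, htof⟩ := tof d a ε (A + 4) hd ha hε0 hε1 (by linarith)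
  obtain ⟨K₃, hK₃, hcls⟩ := cls d (by omega)
  obtain ⟨K', hK'⟩ : ∃ K' : ℝ, K' = 2 * K₁ := ⟨_, rfl⟩
  have hK'1 : 1 ≤ K' := by linarith only [hK', hK₁]
  obtain ⟨D, hD⟩ : ∃ D : ℝ, D = K₃ * (2 * K' * K₁) ^ d := ⟨_, rfl⟩
  obtain ⟨P, hP⟩ : ∃ P : ℝ, P = 2 ^ (d + 4) * (2 * K') ^ d := ⟨_, rfl⟩
  obtain ⟨C₁, hC₁⟩ : ∃ C₁ : ℝ, C₁ = K₃ * (A + 4 * d * d + 4 * d + 6) := ⟨_, rfl⟩
  have hC₁1 : 1 ≤ C₁ := by
    rw [hC₁]
    nlinarith only [hK₃, hA, hd0, hdd]
  obtain ⟨Q, hQ⟩ : ∃ Q : ℝ, Q = 6 * d ^ 2 * (2 * C₁ + K₁) + 2 * K₁ + 7 := ⟨_, rfl⟩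
  obtain ⟨l₀, hl₀, hnum⟩ := nums d Q K' D P c₂ A (max (-Real.log c₁) (-Real.log c₂)) ε θ hc₂
    hε0 hθ
  obtain ⟨K, hK⟩ : ∃ K : ℝ, K = K₁ + (4 * d + 1) * K₃ + (K₁ + 1) * (3 * d ^ 2 + 1) +
      2 ^ (d + 4) * (2 * K') ^ d * K₁ ^ d := ⟨_, rfl⟩
  have hp1 : 0 ≤ (4 * (d : ℝ) + 1) * K₃ := by positivity
  have hp2 : 0 ≤ (K₁ + 1) * (3 * (d : ℝ) ^ 2 + 1) := by positivity
  have hp3 : 0 ≤ 2 ^ (d + 4) * (2 * K') ^ d * K₁ ^ d := by positivity
  have hKa : K₁ + (4 * d + 1) * K₃ ≤ K := by linarith only [hK, hp2, hp3]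
  have hKb : (K₁ + 1) * (3 * d ^ 2 + 1) ≤ K := by linarith only [hK, hp1, hp3, hK₁]
  have hKc : 2 ^ (d + 4) * (2 * K') ^ d * K₁ ^ d ≤ K := by linarith only [hK, hp1, hp2, hK₁]
  refine ⟨Real.exp (-l₀), K, Real.exp_pos _, ?_, by linarith only [hKa, hp1, hK₁], ?_⟩
  · have h1 : Real.exp (-l₀) ≤ Real.exp (-3) := Real.exp_le_exp.2 (by linarith)
    have h2 := Real.add_one_le_exp (3 : ℝ)
    have h3 : Real.exp (-3) = (Real.exp 3)⁻¹ := Real.exp_neg 3
    have h4 : (Real.exp 3)⁻¹ ≤ (4 : ℝ)⁻¹ := inv_anti₀ (by norm_num) (by linarith)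
    linarith only [h1, h2, h3, h4]
  intro σ E hσ hσc hEl hE
  have hσ0 : 0 < |σ| := abs_pos.2 hσ
  obtain ⟨l, hl⟩ : ∃ l, l = Real.log (1 / |σ|) := ⟨_, rfl⟩
  have hσl : |σ| = Real.exp (-l) := by
    rw [hl, one_div, Real.log_inv, neg_neg, Real.exp_log hσ0]
  have hl0 : l₀ ≤ l := by
    rw [hσl] at hσc
    have := Real.exp_le_exp.1 hσc
    linarith only [this]
  obtain ⟨hlm, hQl, hK'l, hPl, hDl, hAl⟩ := hnum l hl0
  have hl3 : 3 ≤ l := hl₀.trans hl0
  have hlp : 0 < l := by linarith only [hl3]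
  have hσ2 : σ ^ 2 = Real.exp (-(2 * l)) := by
    rw [← sq_abs, hσl, ← Real.exp_nat_mul]
    congr 1
    push_cast
    ring
  have hpow : ∀ x : ℝ, |σ| ^ x = Real.exp (-(x * l)) := by
    intro x
    rw [hσl, ← Real.exp_mul]
    ring_nf
  have hσc₁ : |σ| ≤ c₁ := by
    rw [hσl, ← Real.exp_log hc₁]
    exact Real.exp_le_exp.2 (by linarith only [hlm, le_max_left (-Real.log c₁) (-Real.log c₂)])
  have hσc₂ : |σ| ≤ c₂ := by
    rw [hσl, ← Real.exp_log hc₂]
    exact Real.exp_le_exp.2 (by linarith only [hlm, le_max_right (-Real.log c₁) (-Real.log c₂)])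
  obtain ⟨n₁, ρ₁, J₁, s₁, hs₁1, hs₁K, hρ₁1, hρ₁, hJ₁1, hJ₁, hn₁1, hn₁, hn₁l, hP₁⟩ :=
    hclq σ E hσ hσc₁ hE
  rw [← hl] at hs₁K hJ₁ hn₁l
  have hρ₁' : (ρ₁ : ℝ) ≤ K₁ * Real.exp (2 * l) := by
    rw [hσ2] at hρ₁
    refine hρ₁.trans (le_of_eq ?_)
    rw [Real.exp_neg, div_inv_eq_mul]
  obtain ⟨R₁, J₂, R, hR₁, hR, hJ₂, hN2, hR1, hρR, hRu⟩ :=
    scales hd hl3 hC₁1 hK₁ hε1 hρ₁' hρ₁1 hQ hQl
  have hR1' : (1 : ℝ) ≤ R := by exact_mod_cast hR1
  have hR0 : (0 : ℝ) ≤ R := by linarith only [hR1']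
  have he2 : 1 ≤ Real.exp (2 * l) := Real.one_le_exp (by positivity)
  obtain ⟨L, hL1, hLl, hLu⟩ := ceil_x (x := K' * Real.exp (2 * l))
    (by nlinarith only [hK'1, he2])
  have hLu' : (L : ℝ) ≤ 2 * K' * Real.exp (2 * l) := by linarith only [hLu]
  obtain ⟨N₀, hN₀1, hN₀u, hN₀d, hN₀4, hN₀l⟩ := cubes hd hl3 hK'1 hε0 hε1 hLl hLu' hP hPl
  obtain ⟨M, hM1, hMl, hMu⟩ := ceil_x (x := Real.exp ((4 * d + 5) * l))
    (Real.one_le_exp (by positivity))
  have hne : NeZero M := ⟨by omega⟩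
  obtain ⟨v, hv⟩ : ∃ v : ℝ≥0, (v : ℝ) = σ ^ 2 := ⟨⟨σ ^ 2, sq_nonneg σ⟩, rfl⟩
  have hL3 : (L : ℝ) ≤ Real.exp (3 * l) := by
    calc (L : ℝ) ≤ 2 * K' * Real.exp (2 * l) := hLu'
      _ ≤ Real.exp l * Real.exp (2 * l) := by gcongr
      _ = Real.exp (3 * l) := by
          rw [← Real.exp_add]
          ring_nf
  have he9 : (10 : ℝ) ≤ Real.exp (3 * l) := by
    have := Real.quadratic_le_exp_of_nonneg (show (0 : ℝ) ≤ 3 * l by positivity)
    nlinarith only [this, hl3]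
  have he2l : (2 : ℝ) ≤ Real.exp l := by
    have := Real.add_one_le_exp l
    linarith only [this, hl3]
  have hdl3 : 3 * l ≤ 2 * d * l := by nlinarith only [hd0, hlp]
  have he10 : 4 * Real.exp (2 * d * l) ≤ Real.exp ((4 * d + 5) * l) := by
    calc 4 * Real.exp (2 * d * l) ≤ Real.exp (3 * l) * Real.exp (2 * d * l) := by
          gcongr
          linarith only [he9]
      _ ≤ Real.exp ((4 * d + 5) * l) := by
          rw [← Real.exp_add]
          refine Real.exp_le_exp.2 ?_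
          nlinarith only [hdl3, hlp]
  have hMR : 2 * (R + L) + 5 ≤ M := by
    have h0 : Real.exp (3 * l) ≤ Real.exp (2 * d * l) := Real.exp_le_exp.2 hdl3
    have h1 : (2 * ((R : ℝ) + L) + 5) ≤ M := by
      linarith only [hRu, hL3, he10, hMl, h0, he9]
    exact_mod_cast h1
  have hρL : 2 * ρ₁ ≤ L := by
    have h1 : 2 * (ρ₁ : ℝ) ≤ L := by
      calc 2 * (ρ₁ : ℝ) ≤ 2 * (K₁ * Real.exp (2 * l)) := by linarith only [hρ₁']
        _ = K' * Real.exp (2 * l) := by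
            rw [hK']
            ring
        _ ≤ L := hLl
    exact_mod_cast h1
  -- the torus
  obtain ⟨η, hη⟩ : ∃ η : ℝ, η = |σ| ^ (2 * (d : ℝ) - ε) := ⟨_, rfl⟩
  have hη' : η = Real.exp (-((2 * d - ε) * l)) := by rw [hη, hpow]
  have hη0 : 0 < η := by rw [hη']; exact Real.exp_pos _
  have hdε : 1 ≤ 2 * (d : ℝ) - ε := by linarith only [hd0, hε1]
  have hdεl : l ≤ (2 * (d : ℝ) - ε) * l := by nlinarith only [hdε, hlp]
  have hηl : η ≤ Real.exp (-l) := by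
    rw [hη']
    exact Real.exp_le_exp.2 (by linarith only [hdεl])
  have hη1 : η ≤ 1 := hηl.trans (Real.exp_le_one_iff.2 (by linarith only [hlp]))
  have hlogη : Real.log (1 / η) = (2 * d - ε) * l := by
    rw [hη', one_div, ← Real.exp_neg, neg_neg, Real.log_exp]
  have hlogη' : Real.log (1 / η) ≤ 2 * d * l := by
    rw [hlogη]
    nlinarith only [hε0, hlp]
  have htor := htof M v σ E η hv hσ hσc₂ hEl hE hη (by
      rw [hpow]
      refine le_trans (Real.exp_le_exp.2 ?_) hMl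
      nlinarith only [hlp]) (by
      rw [hpow]
      refine hMu.trans ?_
      calc 2 * Real.exp ((4 * d + 5) * l) ≤ Real.exp l * Real.exp ((4 * d + 5) * l) := by
            gcongr
        _ = Real.exp (-(-(4 * d + 6) * l)) := by
            rw [← Real.exp_add]
            ring_nf)
  -- the numbers
  obtain ⟨s, hs⟩ : ∃ s : ℝ, s = s₁ + (4 * d + 1) * K₃ * l := ⟨_, rfl⟩
  have hKl : 0 < (4 * d + 1) * K₃ * l := by positivity
  have hnN : 2 ^ (d + 1) ≤ n₁ * N₀ := by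
    have h2 : 2 ^ (d + 1) ≤ N₀ := by exact_mod_cast hN₀d
    calc 2 ^ (d + 1) ≤ N₀ := h2
      _ = 1 * N₀ := (one_mul _).symm
      _ ≤ n₁ * N₀ := Nat.mul_le_mul_right _ hn₁1
  obtain ⟨n, hn⟩ : ∃ n : ℕ, n = n₁ * N₀ / 2 ^ d := ⟨_, rfl⟩
  have hnu : n * 2 ^ d ≤ n₁ * N₀ := by
    rw [hn]
    exact Nat.div_mul_le_self _ _
  have hnl : n₁ * N₀ ≤ n * 2 ^ (d + 1) := by
    have h1 : n₁ * N₀ < (n + 1) * 2 ^ d := by
      rw [hn, mul_comm (_ + 1)]
      exact Nat.lt_mul_div_succ _ (by positivity)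
    have h2 : 2 ^ (d + 1) = 2 * 2 ^ d := by ring
    have h3 : 2 * 2 ^ d ≤ n₁ * N₀ := by rw [← h2]; exact hnN
    have h4 : 2 ^ d ≤ n * 2 ^ d := by
      nlinarith only [h1, h3]
    nlinarith only [h1, h2, h4]
  have hn1 : 1 ≤ n := by
    rw [hn, Nat.le_div_iff_mul_le (by positivity), one_mul]
    exact le_trans (Nat.pow_le_pow_right (by norm_num) (by omega)) hnN
  have hx4 : 0 < K₁ * Real.exp (-(2 * l)) * l ^ 4 := by positivity
  have hn₁l' : ((K₁ * Real.exp (-(2 * l)) * l ^ 4) ^ d)⁻¹ ≤ n₁ := by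
    rw [hσ2, Real.rpow_neg hx4.le, Real.rpow_natCast] at hn₁l
    exact hn₁l
  refine ⟨n, R + ρ₁ + 2, (J₁ + 1) * (J₂ + 1), s, by linarith only [hs, hs₁1, hKl], ?_,
    by omega, ?_,
    Nat.mul_pos (by omega) (by omega), ?_, hn1, ?_, ?_, ?_⟩
  · rw [← hl, hs]
    calc s₁ + (4 * d + 1) * K₃ * l ≤ K₁ * l + (4 * d + 1) * K₃ * l := by linarith only [hs₁K]
      _ = (K₁ + (4 * d + 1) * K₃) * l := by ring
      _ ≤ K * l := by gcongr
  · rw [hpow]
    push_cast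
    have h1 : (ρ₁ : ℝ) ≤ R := by exact_mod_cast hρR
    calc (R : ℝ) + ρ₁ + 2 ≤ 2 * R + 7 := by linarith only [h1]
      _ ≤ Real.exp (2 * d * l) := hRu
      _ ≤ Real.exp (-(-(2 * d + 1) * l)) := Real.exp_le_exp.2 (by nlinarith only [hlp])
  · rw [← hl]
    push_cast
    have h1 : (J₁ : ℝ) + 1 ≤ (K₁ + 1) * l := by linarith only [hJ₁, hl3]
    have h2 : (J₂ : ℝ) + 1 ≤ (3 * d ^ 2 + 1) * l := by linarith only [hJ₂, hl3]
    calc ((J₁ : ℝ) + 1) * (J₂ + 1) ≤ ((K₁ + 1) * l) * ((3 * d ^ 2 + 1) * l) := by gcongr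
      _ = (K₁ + 1) * (3 * d ^ 2 + 1) * l ^ 2 := by ring
      _ ≤ K * l ^ 2 := by gcongr
  · -- `n ≤ n₁ N₀`
    have h1 : (n : ℝ) ≤ n₁ * N₀ := by
      have h2 : n ≤ n₁ * N₀ := le_trans (Nat.le_mul_of_pos_right _ (by positivity)) hnu
      exact_mod_cast h2
    rw [hpow] at hn₁ ⊢
    have hLl2 : Real.exp (2 * d * l) ≤ (L : ℝ) ^ d := by
      calc Real.exp (2 * d * l) = (1 * Real.exp (2 * l)) ^ d := by
            rw [one_mul, ← Real.exp_nat_mul]
            ring_nf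
        _ ≤ (K' * Real.exp (2 * l)) ^ d := by gcongr
        _ ≤ (L : ℝ) ^ d := by gcongr
    have h3 : (N₀ : ℝ) * Real.exp (2 * d * l) ≤ Real.exp (d * (d + 1 - ε) * l) := by
      have h4 : 0 ≤ (N₀ : ℝ) * (L : ℝ) ^ d := by positivity
      calc (N₀ : ℝ) * Real.exp (2 * d * l) ≤ N₀ * (L : ℝ) ^ d := by gcongr
        _ ≤ 4 * N₀ * (L : ℝ) ^ d := by linarith only [h4]
        _ ≤ _ := hN₀4
    calc (n : ℝ) ≤ n₁ * N₀ := h1
      _ ≤ Real.exp (-(-(2 * (d : ℝ)) * l)) * N₀ := by gcongr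
      _ = N₀ * Real.exp (2 * d * l) := by
          rw [mul_comm]
          ring_nf
      _ ≤ Real.exp (d * (d + 1 - ε) * l) := h3
      _ ≤ Real.exp (-(-((d : ℝ) * (d + 1)) * l)) := by
          refine Real.exp_le_exp.2 ?_
          have h5 : 0 ≤ (d : ℝ) * ε * l := by positivity
          linarith only [h5]
  · rw [← hl, hpow]
    have h1 : (n₁ : ℝ) * N₀ ≤ n * 2 ^ (d + 1) := by exact_mod_cast hnl
    have h2 : Real.exp (2 * d * l) ≤ K₁ ^ d * l ^ (4 * d) * n₁ := by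
      rw [inv_le_iff_one_le_mul₀ (by positivity)] at hn₁l'
      have h3 : (K₁ * Real.exp (-(2 * l)) * l ^ 4) ^ d =
          K₁ ^ d * l ^ (4 * d) * Real.exp (-(2 * d * l)) := by
        rw [mul_pow, mul_pow, ← Real.exp_nat_mul, ← pow_mul]
        have h4 : (d : ℝ) * -(2 * l) = -(2 * d * l) := by ring
        rw [h4]
        ring
      rw [h3] at hn₁l'
      have h5 : Real.exp (2 * d * l) * Real.exp (-(2 * d * l)) = 1 := by
        rw [← Real.exp_add]
        simp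
      calc Real.exp (2 * d * l) = Real.exp (2 * d * l) * 1 := (mul_one _).symm
        _ ≤ Real.exp (2 * d * l) * (n₁ * (K₁ ^ d * l ^ (4 * d) * Real.exp (-(2 * d * l)))) := by
            gcongr
        _ = K₁ ^ d * l ^ (4 * d) * n₁ * (Real.exp (2 * d * l) * Real.exp (-(2 * d * l))) := by
            ring
        _ = K₁ ^ d * l ^ (4 * d) * n₁ := by rw [h5, mul_one]
    calc Real.exp (-(-((d : ℝ) * (d + 1 - ε)) * l)) = Real.exp (d * (d + 1 - ε) * l) := by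
          ring_nf
      _ ≤ 8 * (2 * K') ^ d * Real.exp (2 * d * l) * N₀ := hN₀l
      _ ≤ 8 * (2 * K') ^ d * (K₁ ^ d * l ^ (4 * d) * n₁) * N₀ := by gcongr
      _ = 8 * (2 * K') ^ d * K₁ ^ d * l ^ (4 * d) * (n₁ * N₀) := by ring
      _ ≤ 8 * (2 * K') ^ d * K₁ ^ d * l ^ (4 * d) * (n * 2 ^ (d + 1)) := by gcongr
      _ = (2 ^ (d + 4) * (2 * K') ^ d * K₁ ^ d) * l ^ (4 * d) * n := by ring
      _ ≤ K * l ^ (4 * d) * n := by gcongr
  · intro N b hbox
    have hbox1 : box b (R + ρ₁) ⊆ box 0 N := (box_mono b (by omega)).trans hbox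
    have hbox2 : box b (R + 2) ⊆ box 0 N := (box_mono b (by omega)).trans hbox
    have hA4 : 0 ≤ |σ| ^ (A + 4) := by positivity
    have hA5 : 0 ≤ |σ| ^ (A + 4 + 2 * d * d) := by positivity
    have h2 := ev_two hσ hv b N R n₁ ρ₁ J₁ E s₁ _ _ _ hA4 hA5 htor hbox1
      (fun x hx => hP₁ N x hx)
    have hq3 : |σ| ^ (A + 4) + (2 * (R : ℝ) + 1) ^ d * |σ| ^ (A + 4 + 2 * d * d) ≤
        |σ| ^ (A + 3) := by
      rw [hpow, hpow, hpow]
      have h3 : (2 * (R : ℝ) + 1) ^ d ≤ Real.exp (2 * d * d * l) := by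
        calc (2 * (R : ℝ) + 1) ^ d ≤ (Real.exp (2 * d * l)) ^ d := by
              gcongr
              linarith only [hRu]
          _ = Real.exp (2 * d * d * l) := by
              rw [← Real.exp_nat_mul]
              ring_nf
      calc Real.exp (-((A + 4) * l)) + (2 * (R : ℝ) + 1) ^ d *
            Real.exp (-((A + 4 + 2 * d * d) * l)) ≤ Real.exp (-((A + 4) * l)) +
            Real.exp (2 * d * d * l) * Real.exp (-((A + 4 + 2 * d * d) * l)) := by gcongr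
        _ = 2 * Real.exp (-((A + 4) * l)) := by
            rw [← Real.exp_add]
            ring_nf
        _ ≤ Real.exp l * Real.exp (-((A + 4) * l)) := by gcongr
        _ = Real.exp (-((A + 3) * l)) := by
            rw [← Real.exp_add]
            ring_nf
    have hb := CL.H81.bad_prob hσ E ((A + 4 * d * d + 5) * l) (|σ| ^ (A + 3)) N R b _
      (by positivity) (h2.trans (ENNReal.ofReal_le_ofReal hq3))
    refine (measure_mono ?_).trans (hb.trans (ENNReal.ofReal_le_ofReal ?_))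
    · intro V hV
      rw [Set.mem_ofPred_eq] at hV ⊢
      rintro ⟨h1, h2, h3, ⟨⟨h4, h5⟩, h6⟩⟩
      apply hV
      have hss : s₁ ≤ s := by linarith only [hs, hKl]
      rcases gro d V (box 0 N) E s b ρ₁ R R₁ J₁ J₂ L n₁ N₀ (by omega) hN₀1 hL1 hρL
        (hN2 N₀ hN₀u) (by rw [hR]) (fun x hx => (h6 x hx).trans
          (Finset.card_le_card (CL.H81.rch_mono_s hss J₁))) with h7 | h7
      · have h8 : 2 ^ d * n ≤ 2 ^ d * (rch V (box 0 N) E s b R ((J₁ + 1) * (J₂ + 1))).card := by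
          rw [mul_comm]
          exact hnu.trans h7
        have h9 := Nat.le_of_mul_le_mul_left h8 (by positivity)
        exact h9.trans (Finset.card_le_card (rch_mono_rad (by omega) _))
      · exfalso
        obtain ⟨r, C, 𝒦, g1, g2, g3, g4, g5, g6, g7, g8⟩ := h7
        have hθ0 : 0 ≤ |σ| ^ θ := by positivity
        have hlogR : Real.log R ≤ 2 * d * l := by
          calc Real.log R ≤ Real.log (Real.exp (2 * d * l)) :=
                Real.log_le_log (by linarith only [hR1']) (by linarith only [hRu, hR0])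
            _ = 2 * d * l := Real.log_exp _
        have key := hcls M V (fun x : Tor d M => V (b + rep x)) N R r R₁ L n₁ E η s
          ((A + 4 * d * d + 5) * l) c₂ (|σ| ^ θ) b C 𝒦 hη0 hη1 (by linarith only [hE, ha])
          (by positivity)
          hθ0 hL1 hn₁1
          hR1 hMR (fun y hy => by
            have := ti_rep (M := M) (b := b) (y := y) (R := R + 2) (by omega) hy
            simp only [this]) hbox2 g1 g2 g3 g7 g8 g6 h1 h2 h3 ?_ ?_ h4 ?_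
        · rw [hpow] at key
          have hfin := fin_c (d := d) (n₁ := n₁) (L := L) hl3 hK₁ hK₃ hK'1 hηl hn₁l' hLu' hD hDl
          linarith only [hfin, key]
        · calc K₃ * ((A + 4 * d * d + 5) * l + 1 + Real.log (1 / η) + Real.log R) ≤
                K₃ * ((A + 4 * d * d + 5) * l + l + 2 * d * l + 2 * d * l) := by
                gcongr
                linarith only [hl3]
            _ = C₁ * l * Real.exp ((2 * d - ε) * l) * Real.exp (-((2 * d - ε) * l)) := by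
                rw [mul_assoc (C₁ * l), ← Real.exp_add, hC₁]
                simp
                ring
            _ ≤ R₁ * Real.exp (-((2 * d - ε) * l)) := by gcongr
            _ = η * R₁ := by rw [hη']; ring
        · rw [hs]
          calc K₃ * (1 + Real.log (1 / η) + Real.log R) ≤ K₃ * (l + 2 * d * l + 2 * d * l) := by
                gcongr
                linarith only [hl3]
            _ = (4 * d + 1) * K₃ * l := by ring
            _ ≤ s₁ + (4 * d + 1) * K₃ * l := by linarith only [hs₁1]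
        · intro 𝒜 C' a1 a2 a3 a4
          refine h5 C' ?_
          rw [hpow, a4]
          push_cast
          have a5 : (𝒜.card : ℝ) ≤ 2 * N₀ := by exact_mod_cast a2.trans g5
          have a6 : 0 ≤ (N₀ : ℝ) * (L : ℝ) ^ d := by positivity
          calc (𝒜.card : ℝ) * (L : ℝ) ^ d ≤ 2 * N₀ * (L : ℝ) ^ d := by gcongr
            _ ≤ 4 * N₀ * (L : ℝ) ^ d := by linarith only [a6]
            _ ≤ Real.exp (d * (d + 1 - ε) * l) := hN₀4
            _ = Real.exp (-(-((d : ℝ) * (d + 1 - ε)) * l)) := by ring_nf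
    · rw [hpow, hpow]
      exact tail hl3 hR0 hRu hAl (by rw [hσl, Real.exp_neg, one_div, inv_inv])

end Pool.Agent.LE.QF.H54
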