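import Pool.Agent.LE.StmtsQH
import Pool.Agent.Helper54_LQD.CPXb

/-!
# CPY: numbers
-/

set_option autoImplicit false

open MeasureTheory ProbabilityTheory Function Filter

open scoped ENNReal BigOperators Topology NNReal

noncomputable section

namespace Pool.Agent.LE.QF.H54

open Pool.Agent.LE.QD.H54

/-- all the conditions on `l` -/
theorem nums (d : ℕ) (Q K' D P c A lm ε θ : ℝ) (hc : 0 < c) (hε : 0 < ε) (hθ : 0 < θ) :
    ∃ l₀ : ℝ, 3 ≤ l₀ ∧ ∀ l : ℝ, l₀ ≤ l → lm ≤ l ∧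
      Q * l ^ 2 ≤ Real.exp (ε * l) ∧ 2 * K' ≤ Real.exp l ∧ P ≤ Real.exp l ∧
      D * l ^ (4 * d) * Real.exp (-(θ * l)) + D * Real.exp (-l) < c ∧
      (A + 2 * d * d + 3) * l ≤ Real.exp l := by
  have h1 := ev_pow Q 2 (α := ε) hε
  have h2 := ev_pow (2 * K') 0 (α := 1) (by norm_num)
  have h3 := ev_pow P 0 (α := 1) (by norm_num)
  have h4 := ev_pow (4 * D / c) (4 * d) (α := θ) hθ
  have h5 := ev_pow (4 * D / c) 0 (α := 1) (by norm_num)
  have h6 := ev_pow (A + 2 * d * d + 3) 1 (α := 1) (by norm_num)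
  have h := h1.and (h2.and (h3.and (h4.and (h5.and (h6.and (eventually_ge_atTop lm))))))
  obtain ⟨l₁, hl₁⟩ := eventually_atTop.1 h
  refine ⟨max l₁ 3, le_max_right _ _, fun l hl => ?_⟩
  obtain ⟨g1, g2, g3, g4, g5, g6, g7⟩ := hl₁ l ((le_max_left _ _).trans hl)
  simp only [pow_zero, mul_one, one_mul, pow_one] at g2 g3 g5 g6
  refine ⟨g7, g1, g2, g3, ?_, g6⟩
  have e1 : D * l ^ (4 * d) * Real.exp (-(θ * l)) ≤ c / 4 := by
    have h7 : D * l ^ (4 * d) = 4 * D / c * l ^ (4 * d) * (c / 4) := by field_simp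
    rw [h7]
    calc 4 * D / c * l ^ (4 * d) * (c / 4) * Real.exp (-(θ * l)) ≤
          Real.exp (θ * l) * (c / 4) * Real.exp (-(θ * l)) := by gcongr
      _ = c / 4 := by
          rw [mul_comm (Real.exp (θ * l)), mul_assoc, ← Real.exp_add]
          simp
  have e2 : D * Real.exp (-l) ≤ c / 4 := by
    have h7 : D = 4 * D / c * (c / 4) := by field_simp
    rw [h7]
    calc 4 * D / c * (c / 4) * Real.exp (-l) ≤ Real.exp l * (c / 4) * Real.exp (-l) := by gcongr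
      _ = c / 4 := by
          rw [mul_comm (Real.exp l), mul_assoc, ← Real.exp_add]
          simp
  linarith

/-- the scales -/
theorem scales {d : ℕ} {l C₁ K₁ Q ε : ℝ} {ρ₁ : ℕ} (hd : 3 ≤ d) (hl : 3 ≤ l) (hC₁ : 1 ≤ C₁)
    (hK₁ : 1 ≤ K₁) (hε : ε ≤ 1) (hρ₁ : (ρ₁ : ℝ) ≤ K₁ * Real.exp (2 * l))
    (hρ1 : 1 ≤ ρ₁)
    (hQ : Q = 6 * d ^ 2 * (2 * C₁ + K₁) + 2 * K₁ + 7) (hQl : Q * l ^ 2 ≤ Real.exp (ε * l)) :
    ∃ R₁ J₂ R : ℕ, C₁ * l * Real.exp ((2 * d - ε) * l) ≤ R₁ ∧ R = J₂ * (R₁ + ρ₁) + ρ₁ ∧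
      (J₂ : ℝ) ≤ 3 * d ^ 2 * l ∧ (∀ N₀ : ℕ, (N₀ : ℝ) ≤ Real.exp (d ^ 2 * l) → N₀ < 2 ^ J₂) ∧
      1 ≤ R ∧ ρ₁ ≤ R ∧ (2 * (R : ℝ) + 7) ≤ Real.exp (2 * d * l) := by
  have hd0 : (3 : ℝ) ≤ d := by exact_mod_cast hd
  have hd2 : (9 : ℝ) ≤ (d : ℝ) ^ 2 := by nlinarith
  have he0 : 0 < (2 * (d : ℝ) - ε) * l := mul_pos (by linarith) (by linarith)
  have he1 : 1 ≤ Real.exp ((2 * d - ε) * l) := Real.one_le_exp he0.le
  have hx1 : 1 ≤ C₁ * l * Real.exp ((2 * d - ε) * l) := by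
    have h1 : 1 ≤ C₁ * l := by nlinarith
    nlinarith
  obtain ⟨R₁, hR₁1, hR₁l, hR₁u⟩ := ceil_x hx1
  have hdl : 1 ≤ 3 / 2 * (d : ℝ) ^ 2 * l := by nlinarith
  obtain ⟨J₂, hJ1, hJl, hJu⟩ := ceil_x hdl
  refine ⟨R₁, J₂, J₂ * (R₁ + ρ₁) + ρ₁, hR₁l, rfl, by linarith, ?_, by omega, by omega, ?_⟩
  · intro N₀ hN₀
    have h1 : (N₀ : ℝ) < 2 ^ J₂ := by
      calc (N₀ : ℝ) ≤ Real.exp (d ^ 2 * l) := hN₀
        _ < Real.exp (J₂ * Real.log 2) := by
            refine Real.exp_lt_exp.2 ?_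
            have h7 := Real.log_two_gt_d9
            have h8 : 3 / 2 * d ^ 2 * l * Real.log 2 ≤ J₂ * Real.log 2 := by gcongr
            have h9 : 0 < (d : ℝ) ^ 2 * l := by positivity
            nlinarith
        _ = 2 ^ J₂ := by rw [Real.exp_nat_mul, Real.exp_log (by norm_num)]
    exact_mod_cast h1
  · push_cast
    obtain ⟨e, he⟩ : ∃ e : ℝ, e = Real.exp ((2 * d - ε) * l) := ⟨_, rfl⟩
    rw [← he] at hR₁u he1
    have h2 : Real.exp (2 * l) ≤ e := by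
      rw [he]
      refine Real.exp_le_exp.2 ?_
      have : 2 ≤ 2 * (d : ℝ) - ε := by linarith
      nlinarith
    have hρ' : (ρ₁ : ℝ) ≤ K₁ * e := hρ₁.trans (by gcongr)
    have hJ' : (J₂ : ℝ) ≤ 3 * d ^ 2 * l := by linarith
    have h3 : (J₂ : ℝ) * (R₁ + ρ₁) ≤ 3 * d ^ 2 * l * (2 * (C₁ * l * e) + K₁ * e) := by gcongr
    have h4 : 2 * ((J₂ : ℝ) * (R₁ + ρ₁) + ρ₁) + 7 ≤ Q * l ^ 2 * e := by
      have h5 : 3 * (d : ℝ) ^ 2 * l * (2 * (C₁ * l * e) + K₁ * e) ≤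
          3 * d ^ 2 * (2 * C₁ + K₁) * (l ^ 2 * e) := by
        have h6 : 3 * (d : ℝ) ^ 2 * l * (K₁ * e) ≤ 3 * d ^ 2 * K₁ * (l ^ 2 * e) := by
          have h7 : l ≤ l ^ 2 := by nlinarith
          calc 3 * (d : ℝ) ^ 2 * l * (K₁ * e) = 3 * d ^ 2 * K₁ * (l * e) := by ring
            _ ≤ 3 * d ^ 2 * K₁ * (l ^ 2 * e) := by gcongr
        nlinarith
      have h8 : K₁ * e ≤ K₁ * (l ^ 2 * e) := by
        have h9 : 1 ≤ l ^ 2 := by nlinarith
        have h10 : e ≤ l ^ 2 * e := by nlinarith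
        gcongr
      have h11 : (7 : ℝ) ≤ 7 * (l ^ 2 * e) := by
        have h9 : 1 ≤ l ^ 2 := by nlinarith
        nlinarith
      rw [hQ]
      nlinarith
    refine h4.trans ?_
    calc Q * l ^ 2 * e ≤ Real.exp (ε * l) * e := by gcongr
      _ = Real.exp (2 * d * l) := by
          rw [he, ← Real.exp_add]
          ring_nf

/-- the number of the coarse cubes -/
theorem cubes {d L : ℕ} {l K' ε P : ℝ} (hd : 3 ≤ d) (hl : 3 ≤ l) (hK' : 1 ≤ K') (hε0 : 0 < ε)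
    (hε : ε ≤ 1) (hL1 : K' * Real.exp (2 * l) ≤ L) (hL : (L : ℝ) ≤ 2 * K' * Real.exp (2 * l))
    (hP : P = 2 ^ (d + 4) * (2 * K') ^ d) (hPl : P ≤ Real.exp l) :
    ∃ N₀ : ℕ, 1 ≤ N₀ ∧ (N₀ : ℝ) ≤ Real.exp (d ^ 2 * l) ∧ (2 : ℝ) ^ (d + 1) ≤ N₀ ∧
      (4 * N₀ * (L : ℝ) ^ d ≤ Real.exp (d * (d + 1 - ε) * l)) ∧
      Real.exp (d * (d + 1 - ε) * l) ≤ 8 * (2 * K') ^ d * Real.exp (2 * d * l) * N₀ := by
  have hd0 : (3 : ℝ) ≤ d := by exact_mod_cast hd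
  have hK0 : 0 < (2 * K') ^ d := by positivity
  have he : Real.exp (2 * l) ^ d = Real.exp (2 * d * l) := by
    rw [← Real.exp_nat_mul]
    ring_nf
  have hLp : 0 < (L : ℝ) := lt_of_lt_of_le (by positivity) hL1
  have hLd : (L : ℝ) ^ d ≤ (2 * K') ^ d * Real.exp (2 * d * l) := by
    calc (L : ℝ) ^ d ≤ (2 * K' * Real.exp (2 * l)) ^ d := by gcongr
      _ = (2 * K') ^ d * Real.exp (2 * d * l) := by rw [mul_pow, he]
  have hLl : Real.exp (2 * d * l) ≤ (L : ℝ) ^ d := by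
    calc Real.exp (2 * d * l) = (1 * Real.exp (2 * l)) ^ d := by rw [one_mul, he]
      _ ≤ (K' * Real.exp (2 * l)) ^ d := by gcongr
      _ ≤ (L : ℝ) ^ d := by gcongr
  obtain ⟨y, hy⟩ : ∃ y : ℝ, y = Real.exp (d * (d + 1 - ε) * l) / (4 * (L : ℝ) ^ d) := ⟨_, rfl⟩
  have hyL : 4 * (L : ℝ) ^ d * y = Real.exp (d * (d + 1 - ε) * l) := by
    rw [hy]
    field_simp
  have hylow : 2 ^ (d + 2) ≤ y := by
    rw [hy, le_div_iff₀ (by positivity)]
    have h1 : Real.exp l ≤ Real.exp (d * (d - 1 - ε) * l) := by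
      refine Real.exp_le_exp.2 ?_
      have h2 : 1 ≤ (d : ℝ) - 1 - ε := by linarith
      have h3 : 1 ≤ (d : ℝ) * (d - 1 - ε) := by nlinarith
      nlinarith
    calc 2 ^ (d + 2) * (4 * (L : ℝ) ^ d) ≤
          2 ^ (d + 2) * (4 * ((2 * K') ^ d * Real.exp (2 * d * l))) := by gcongr
      _ = P * Real.exp (2 * d * l) := by
          rw [hP]
          ring
      _ ≤ Real.exp (d * (d - 1 - ε) * l) * Real.exp (2 * d * l) := by
          gcongr
          exact hPl.trans h1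
      _ = Real.exp (d * (d + 1 - ε) * l) := by
          rw [← Real.exp_add]
          ring_nf
  have h2d : (1 : ℝ) ≤ 2 ^ (d + 2) := one_le_pow₀ (by norm_num)
  obtain ⟨N₀, hN1, hNu, hNl⟩ := floor_x (x := y) (h2d.trans hylow)
  refine ⟨N₀, hN1, ?_, ?_, ?_, ?_⟩
  · refine hNu.trans ?_
    rw [hy, div_le_iff₀ (by positivity)]
    calc Real.exp (d * (d + 1 - ε) * l) ≤ Real.exp (d ^ 2 * l) * Real.exp (2 * d * l) := by
          rw [← Real.exp_add]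
          refine Real.exp_le_exp.2 ?_
          have h3 : 0 ≤ (d : ℝ) * (1 + ε) * l := by positivity
          nlinarith
      _ ≤ Real.exp (d ^ 2 * l) * (4 * (L : ℝ) ^ d) := by
          have h4 : 0 < (L : ℝ) ^ d := by positivity
          have h5 : Real.exp (2 * d * l) ≤ 4 * (L : ℝ) ^ d := by linarith only [h4, hLl]
          gcongr
  · have h3 : (2 : ℝ) ^ (d + 2) = 2 * 2 ^ (d + 1) := by ring
    linarith
  · calc 4 * (N₀ : ℝ) * (L : ℝ) ^ d ≤ 4 * y * (L : ℝ) ^ d := by gcongr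
      _ = Real.exp (d * (d + 1 - ε) * l) := by rw [← hyL]; ring
  · calc Real.exp (d * (d + 1 - ε) * l) = 4 * (L : ℝ) ^ d * y := hyL.symm
      _ ≤ 4 * ((2 * K') ^ d * Real.exp (2 * d * l)) * (2 * N₀) := by
          have hy0 : 0 ≤ y := by linarith only [h2d, hylow]
          gcongr
      _ = 8 * (2 * K') ^ d * Real.exp (2 * d * l) * N₀ := by ring

/-- the final contradiction -/
theorem fin_c {d n₁ L : ℕ} {l K₁ K₃ K' θ η c D : ℝ} (hl : 3 ≤ l)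
    (hK₁ : 1 ≤ K₁) (hK₃ : 1 ≤ K₃) (hK' : 1 ≤ K') (hη : η ≤ Real.exp (-l))
    (hn : ((K₁ * Real.exp (-(2 * l)) * l ^ 4) ^ d)⁻¹ ≤ n₁)
    (hL : (L : ℝ) ≤ 2 * K' * Real.exp (2 * l)) (hD : D = K₃ * (2 * K' * K₁) ^ d)
    (hD2 : D * l ^ (4 * d) * Real.exp (-(θ * l)) + D * Real.exp (-l) < c) :
    K₃ * (Real.exp (-(θ * l)) * (L : ℝ) ^ d / n₁ + η) < c := by
  have hx : 0 < (K₁ * Real.exp (-(2 * l)) * l ^ 4) ^ d := by positivity
  have hn0 : (0 : ℝ) < n₁ := lt_of_lt_of_le (by positivity) hn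
  have h1 : (n₁ : ℝ)⁻¹ ≤ (K₁ * Real.exp (-(2 * l)) * l ^ 4) ^ d := by
    rw [inv_le_comm₀ hn0 hx]
    exact hn
  have h2 : (L : ℝ) ^ d / n₁ ≤ (2 * K' * K₁) ^ d * l ^ (4 * d) := by
    calc (L : ℝ) ^ d / n₁ = (L : ℝ) ^ d * (n₁ : ℝ)⁻¹ := div_eq_mul_inv _ _
      _ ≤ (2 * K' * Real.exp (2 * l)) ^ d * (K₁ * Real.exp (-(2 * l)) * l ^ 4) ^ d := by gcongr
      _ = (2 * K' * K₁ * (Real.exp (2 * l) * Real.exp (-(2 * l))) * l ^ 4) ^ d := by
          rw [← mul_pow]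
          ring
      _ = (2 * K' * K₁) ^ d * l ^ (4 * d) := by
          rw [← Real.exp_add]
          simp only [add_neg_cancel, Real.exp_zero, mul_one]
          rw [mul_pow, ← pow_mul]
  have h3 : Real.exp (-(θ * l)) * (L : ℝ) ^ d / n₁ ≤
      Real.exp (-(θ * l)) * ((2 * K' * K₁) ^ d * l ^ (4 * d)) := by
    rw [mul_div_assoc]
    gcongr
  have h5 : K₃ ≤ D := by
    rw [hD]
    have h7 : 1 ≤ (2 * K' * K₁) ^ d := by
      apply one_le_pow₀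
      nlinarith
    nlinarith
  calc K₃ * (Real.exp (-(θ * l)) * (L : ℝ) ^ d / n₁ + η) ≤
        K₃ * (Real.exp (-(θ * l)) * ((2 * K' * K₁) ^ d * l ^ (4 * d)) +
          Real.exp (-l)) := by gcongr
    _ = D * l ^ (4 * d) * Real.exp (-(θ * l)) + K₃ * Real.exp (-l) := by
        rw [hD]
        ring
    _ ≤ D * l ^ (4 * d) * Real.exp (-(θ * l)) + D * Real.exp (-l) := by gcongr
    _ < c := hD2

/-- the probability of the bad events -/
theorem tail {d : ℕ} {A l s R : ℝ} (hl3 : 3 ≤ l) (hR0 : 0 ≤ R)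
    (hRu : (2 * R + 7 : ℝ) ≤ Real.exp (2 * d * l)) (hS : (A + 2 * d * d + 3) * l ≤ Real.exp l)
    (hs1 : 1 / s = Real.exp l) :
    (2 * R + 3 : ℝ) ^ d * (4 * Real.exp (-(1 / s))) +
      (2 * R + 3 : ℝ) ^ (2 * d) * (6 * (1 / s) / Real.exp ((A + 4 * d * d + 5) * l)) +
      Real.exp (-((A + 3) * l)) ≤ Real.exp (-(A * l)) := by
  have hlp : 0 < l := by linarith
  have h23 : (2 * R + 3 : ℝ) ≤ Real.exp (2 * d * l) := by linarith
  have he3 : (20 : ℝ) ≤ Real.exp (3 * l) := by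
    have h1 : Real.exp 9 ≤ Real.exp (3 * l) := Real.exp_le_exp.2 (by linarith)
    have h2 := Real.quadratic_le_exp_of_nonneg (show (0 : ℝ) ≤ 9 by norm_num)
    linarith
  have hAl : 0 < Real.exp (-(A * l)) := Real.exp_pos _
  have t1 : (2 * R + 3 : ℝ) ^ d * (4 * Real.exp (-(1 / s))) ≤
      1 / 4 * Real.exp (-(A * l)) := by
    rw [hs1]
    have h1 : Real.exp (-Real.exp l) ≤ Real.exp (-((A + 2 * d * d + 3) * l)) :=
      Real.exp_le_exp.2 (by linarith)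
    calc (2 * R + 3 : ℝ) ^ d * (4 * Real.exp (-Real.exp l))
        ≤ (Real.exp (2 * d * l)) ^ d * (4 * Real.exp (-((A + 2 * d * d + 3) * l))) := by gcongr
      _ = 4 * (Real.exp (-(A * l)) * Real.exp (-(3 * l))) := by
        rw [← Real.exp_nat_mul, ← Real.exp_add]
        have h2 : Real.exp (d * (2 * d * l)) * (4 * Real.exp (-((A + 2 * d * d + 3) * l))) =
            4 * (Real.exp (d * (2 * d * l)) * Real.exp (-((A + 2 * d * d + 3) * l))) := by ring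
        rw [h2, ← Real.exp_add]
        congr 2
        ring
      _ ≤ 4 * (Real.exp (-(A * l)) * (20 : ℝ)⁻¹) := by
        rw [Real.exp_neg (3 * l)]
        gcongr
      _ ≤ 1 / 4 * Real.exp (-(A * l)) := by linarith
  have t2 : (2 * R + 3 : ℝ) ^ (2 * d) * (6 * (1 / s) / Real.exp ((A + 4 * d * d + 5) * l)) ≤
      1 / 2 * Real.exp (-(A * l)) := by
    rw [hs1]
    calc (2 * R + 3 : ℝ) ^ (2 * d) * (6 * Real.exp l / Real.exp ((A + 4 * d * d + 5) * l))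
        ≤ (Real.exp (2 * d * l)) ^ (2 * d) *
          (6 * Real.exp l / Real.exp ((A + 4 * d * d + 5) * l)) := by
          gcongr
      _ = 6 * (Real.exp (-(A * l)) * Real.exp (-(3 * l)) * Real.exp (-l)) := by
        rw [← Real.exp_nat_mul, mul_div_assoc, ← Real.exp_sub]
        have h2 : Real.exp (((2 * d : ℕ) : ℝ) * (2 * d * l)) *
            (6 * Real.exp (l - (A + 4 * d * d + 5) * l)) =
            6 * (Real.exp (((2 * d : ℕ) : ℝ) * (2 * d * l)) *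
              Real.exp (l - (A + 4 * d * d + 5) * l)) := by ring
        rw [h2, ← Real.exp_add, ← Real.exp_add, ← Real.exp_add]
        congr 2
        push_cast
        ring
      _ ≤ 6 * (Real.exp (-(A * l)) * (20 : ℝ)⁻¹ * 1) := by
        rw [Real.exp_neg (3 * l)]
        have h3 : Real.exp (-l) ≤ 1 := Real.exp_le_one_iff.2 (by linarith)
        gcongr
      _ ≤ 1 / 2 * Real.exp (-(A * l)) := by linarith
  have t3 : Real.exp (-((A + 3) * l)) ≤ 1 / 4 * Real.exp (-(A * l)) := by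
    calc Real.exp (-((A + 3) * l)) = Real.exp (-(A * l)) * Real.exp (-(3 * l)) := by
          rw [← Real.exp_add]
          congr 1
          ring
      _ ≤ Real.exp (-(A * l)) * (20 : ℝ)⁻¹ := by
        rw [Real.exp_neg (3 * l)]
        gcongr
      _ ≤ 1 / 4 * Real.exp (-(A * l)) := by linarith
  linarith

end Pool.Agent.LE.QF.H54
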